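import Pool.Agent.K3h44.SQ.Stm

/-!
# Project SQ: assembly
-/

set_option autoImplicit false

namespace Pool.Agent.K3h44.SQ

open NumberField IsDedekindDomain

/-- bounds for all embeddings and a finite set -/
theorem bd (K : Type) [Field K] [NumberField K] (T : Finset K) :
    ∃ c : ℝ, 1 ≤ c ∧ ∀ η ∈ T, ∀ φ : K →+* ℂ, ‖φ η‖ ≤ c ∧ ‖(φ η)⁻¹‖ ≤ c := by
  classical
  refine ⟨1 + ∑ η ∈ T, ∑ φ : K →+* ℂ, (‖φ η‖ + ‖(φ η)⁻¹‖), ?_, fun η hη φ => ?_⟩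
  · have : 0 ≤ ∑ η ∈ T, ∑ φ : K →+* ℂ, (‖φ η‖ + ‖(φ η)⁻¹‖) :=
      Finset.sum_nonneg fun η _ => Finset.sum_nonneg fun φ _ => by positivity
    linarith
  · have h1 : ∑ φ : K →+* ℂ, (‖φ η‖ + ‖(φ η)⁻¹‖) ≤
        ∑ η ∈ T, ∑ φ : K →+* ℂ, (‖φ η‖ + ‖(φ η)⁻¹‖) :=
      Finset.single_le_sum (f := fun η => ∑ φ : K →+* ℂ, (‖φ η‖ + ‖(φ η)⁻¹‖))
        (fun η _ => Finset.sum_nonneg fun φ _ => by positivity) hη
    have h2 : ‖φ η‖ + ‖(φ η)⁻¹‖ ≤ ∑ φ : K →+* ℂ, (‖φ η‖ + ‖(φ η)⁻¹‖) :=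
      Finset.single_le_sum (f := fun φ : K →+* ℂ => ‖φ η‖ + ‖(φ η)⁻¹‖)
        (fun φ _ => by positivity) (Finset.mem_univ φ)
    have h3 : 0 ≤ ‖φ η‖ := norm_nonneg _
    have h4 : 0 ≤ ‖(φ η)⁻¹‖ := norm_nonneg _
    constructor <;> linarith

theorem cube_le {u v : ℝ} (hv : 0 ≤ v) (h : u ^ 3 ≤ v ^ 3) : u ≤ v := by
  by_contra hcon
  push Not at hcon
  have : v ^ 3 < u ^ 3 := pow_lt_pow_left₀ hcon hv (by norm_num)
  linarith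

theorem asm (hSEL : S_SEL) (hRTH : S_RTH) (hDESC : S_DESC) (hFLD : S_FLD) (a : ℤ) (ha : a ≠ 0)
    (M : ℕ) (hM : M ≠ 0) (ε : ℝ) (hε : 0 < ε) : ∃ C : ℝ, ∀ b x y : ℤ, b ≠ 0 →
      y ^ 2 = x ^ 3 + a * b ^ 2 →
      (∀ q : ℕ, q.Prime → (q : ℤ) ∣ x → (q : ℤ) ∣ y → q ∣ M) →
      |(x : ℝ)| ≤ C * |((a * b ^ 2 : ℤ) : ℝ)| ^ (1 + ε) ∧
      |(y : ℝ)| ≤ C * |((a * b ^ 2 : ℤ) : ℝ)| ^ (3 * (1 + ε) / 2) := by
  classical
  suffices hx : ∃ C : ℝ, 0 ≤ C ∧ ∀ b x y : ℤ, b ≠ 0 → y ^ 2 = x ^ 3 + a * b ^ 2 →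
      (∀ q : ℕ, q.Prime → (q : ℤ) ∣ x → (q : ℤ) ∣ y → q ∣ M) →
      |(x : ℝ)| ≤ C * |((a * b ^ 2 : ℤ) : ℝ)| ^ (1 + ε) by
    obtain ⟨C, hC0, hC⟩ := hx
    refine ⟨C + Real.sqrt (C ^ 3 + 1), fun b x y hb h hg => ?_⟩
    have h1 := hC b x y hb h hg
    obtain ⟨d, hd⟩ : ∃ d : ℤ, d = a * b ^ 2 := ⟨_, rfl⟩
    rw [← hd] at h1 h ⊢
    have hd0 : d ≠ 0 := by
      rw [hd]
      exact mul_ne_zero ha (pow_ne_zero 2 hb)
    have hD1 : (1 : ℝ) ≤ |(d : ℝ)| := by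
      have : (1 : ℤ) ≤ |d| := Int.one_le_abs hd0
      exact_mod_cast this
    obtain ⟨D, hD⟩ : ∃ D : ℝ, D = |(d : ℝ)| := ⟨_, rfl⟩
    rw [← hD] at h1 hD1 ⊢
    have hD0 : 0 < D := by linarith
    have hs0 : 0 ≤ Real.sqrt (C ^ 3 + 1) := Real.sqrt_nonneg _
    constructor
    · refine h1.trans (mul_le_mul_of_nonneg_right (by linarith) (by positivity))
    · have h2 : (y : ℝ) ^ 2 = (x : ℝ) ^ 3 + d := by exact_mod_cast h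
      have h3 : (y : ℝ) ^ 2 ≤ |(x : ℝ)| ^ 3 + D := by
        have e1 : (x : ℝ) ^ 3 ≤ |(x : ℝ)| ^ 3 := by
          rw [← abs_pow]
          exact le_abs_self _
        have e2 : (d : ℝ) ≤ D := by
          rw [hD]
          exact le_abs_self _
        linarith
      have h4 : |(x : ℝ)| ^ 3 ≤ C ^ 3 * D ^ (3 * (1 + ε)) := by
        have e1 : |(x : ℝ)| ^ 3 ≤ (C * D ^ (1 + ε)) ^ 3 := by
          gcongr
        rw [mul_pow, ← Real.rpow_natCast (D ^ (1 + ε)) 3, ← Real.rpow_mul hD0.le] at e1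
        have e2 : (1 + ε) * ((3 : ℕ) : ℝ) = 3 * (1 + ε) := by
          push_cast
          ring
        rwa [e2] at e1
      have h5 : D ≤ D ^ (3 * (1 + ε)) := by
        have := Real.rpow_le_rpow_of_exponent_le hD1 (show (1 : ℝ) ≤ 3 * (1 + ε) by linarith)
        rwa [Real.rpow_one] at this
      have h6 : (y : ℝ) ^ 2 ≤ (C ^ 3 + 1) * D ^ (3 * (1 + ε)) := by
        have : (C ^ 3 + 1) * D ^ (3 * (1 + ε)) = C ^ 3 * D ^ (3 * (1 + ε)) +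
            D ^ (3 * (1 + ε)) := by ring
        linarith
      have h7 : |(y : ℝ)| ≤ Real.sqrt (C ^ 3 + 1) * D ^ (3 * (1 + ε) / 2) := by
        apply abs_le_of_sq_le_sq _ (by positivity)
        rw [mul_pow, Real.sq_sqrt (by positivity), ← Real.rpow_natCast (D ^ (3 * (1 + ε) / 2)) 2,
          ← Real.rpow_mul hD0.le]
        have e2 : 3 * (1 + ε) / 2 * ((2 : ℕ) : ℝ) = 3 * (1 + ε) := by
          push_cast
          ring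
        rw [e2]
        exact h6
      refine h7.trans (mul_le_mul_of_nonneg_right (by linarith) (by positivity))
  -- the bound for `x`
  obtain ⟨K, _, _, s, hs⟩ := hFLD a
  obtain ⟨T, hT0, hT⟩ := hSEL K (2 * M) (by omega)
  obtain ⟨c, hc1, hc⟩ := bd K T
  have hR : ∀ η₁ ∈ T, ∀ η₂ ∈ T, ∃ C : ℝ, ∀ (β₁ β₂ : 𝓞 K) (R g : ℝ), 1 ≤ R → 1 ≤ g →
    η₁ * (β₁ : K) ^ 3 - η₂ * (β₂ : K) ^ 3 ≠ 0 →
    (∀ φ : K →+* ℂ, ‖φ (β₁ : K)‖ ≤ (2 * c) * R ∧ ‖φ (β₂ : K)‖ ≤ (2 * c) * R ∧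
      R ≤ (2 * c) * ‖φ (β₁ : K)‖ ∧
      R ≤ (2 * c) * ‖φ (β₂ : K)‖ ∧ ‖φ (η₁ * (β₁ : K) ^ 3 - η₂ * (β₂ : K) ^ 3)‖ ≤ g) →
    R ≤ C * g ^ (1 + ε) := fun η₁ h1 η₂ h2 =>
    hRTH K η₁ η₂ (hT0 _ h1) (hT0 _ h2) ε (2 * c) hε (by linarith)
  choose! Cf hCf using hR
  obtain ⟨C, hC⟩ : ∃ C : ℝ, C = ∑ η₁ ∈ T, ∑ η₂ ∈ T, |Cf η₁ η₂| := ⟨_, rfl⟩
  have hCle : ∀ η₁ ∈ T, ∀ η₂ ∈ T, Cf η₁ η₂ ≤ C := by
    intro η₁ h1 η₂ h2
    rw [hC]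
    refine (le_abs_self _).trans ?_
    refine le_trans ?_ (Finset.single_le_sum (f := fun η₁ => ∑ η₂ ∈ T, |Cf η₁ η₂|)
      (fun η _ => Finset.sum_nonneg fun η' _ => abs_nonneg _) h1)
    exact Finset.single_le_sum (f := fun η₂ => |Cf η₁ η₂|) (fun η _ => abs_nonneg _) h2
  have hC0 : 0 ≤ C := by
    rw [hC]
    exact Finset.sum_nonneg fun η _ => Finset.sum_nonneg fun η' _ => abs_nonneg _
  refine ⟨16 + C ^ 2 * 4 ^ (1 + ε), by positivity, fun b x y hb h hg => ?_⟩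
  obtain ⟨d, hd⟩ : ∃ d : ℤ, d = a * b ^ 2 := ⟨_, rfl⟩
  have hd0 : d ≠ 0 := by
    rw [hd]
    exact mul_ne_zero ha (pow_ne_zero 2 hb)
  have hD1 : (1 : ℝ) ≤ |(d : ℝ)| := by
    have : (1 : ℤ) ≤ |d| := Int.one_le_abs hd0
    exact_mod_cast this
  rw [← hd]
  have h0 := h
  rw [← hd] at h
  obtain ⟨D, hD⟩ : ∃ D : ℝ, D = |(d : ℝ)| := ⟨_, rfl⟩
  rw [← hD] at hD1 ⊢
  have hD0 : 0 < D := by linarith
  have hDε : D ≤ D ^ (1 + ε) := by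
    have := Real.rpow_le_rpow_of_exponent_le hD1 (show (1 : ℝ) ≤ 1 + ε by linarith)
    rwa [Real.rpow_one] at this
  have hC4 : 0 ≤ C ^ 2 * 4 ^ (1 + ε) * D ^ (1 + ε) := by positivity
  by_cases hbig : |x| ^ 3 < 16 * |d|
  · -- small `x`
    have h1 : |x| ≤ 16 * |d| := by
      have h2 : |x| ≤ |x| ^ 3 := by
        rcases eq_or_ne x 0 with h3 | h3
        · rw [h3]
          simp
        · exact le_self_pow₀ (Int.one_le_abs h3) (by norm_num)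
      omega
    have h2 : |(x : ℝ)| ≤ 16 * D := by
      rw [hD]
      exact_mod_cast h1
    have h3 : 16 * D ≤ 16 * D ^ (1 + ε) := by linarith
    have h4 : (16 + C ^ 2 * 4 ^ (1 + ε)) * D ^ (1 + ε) =
        16 * D ^ (1 + ε) + C ^ 2 * 4 ^ (1 + ε) * D ^ (1 + ε) := by ring
    linarith
  push Not at hbig
  have hdabs : 0 < |d| := abs_pos.2 hd0
  have hy2 : 0 ≤ y ^ 2 := sq_nonneg y
  have hxpos : 0 < x := by
    by_contra hcon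
    push Not at hcon
    have h1 : |x| ^ 3 = -x ^ 3 := by
      rw [abs_of_nonpos hcon]
      ring
    have h2 : d ≤ |d| := le_abs_self d
    omega
  have hx3 : 16 * |d| ≤ x ^ 3 := by
    rwa [abs_of_pos hxpos] at hbig
  have hX0 : (0 : ℝ) < x := by exact_mod_cast hxpos
  have hX1 : (1 : ℝ) ≤ x := by exact_mod_cast hxpos
  have hXD : 16 * D ≤ (x : ℝ) ^ 3 := by
    rw [hD]
    exact_mod_cast hx3
  have hyR : (y : ℝ) ^ 2 = (x : ℝ) ^ 3 + d := by exact_mod_cast h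
  have hdD : (d : ℝ) ≤ D := by rw [hD]; exact le_abs_self _
  have hdD' : -D ≤ (d : ℝ) := by rw [hD]; exact neg_abs_le _
  obtain ⟨R, hRdef⟩ : ∃ R : ℝ, R = Real.sqrt x := ⟨_, rfl⟩
  have hR2 : R ^ 2 = x := by rw [hRdef, Real.sq_sqrt hX0.le]
  have hR1 : 1 ≤ R := by
    rw [hRdef]
    exact Real.one_le_sqrt.2 hX1
  have hR0 : 0 < R := by linarith
  have hR6 : (R ^ 3) ^ 2 = (x : ℝ) ^ 3 := by rw [← hR2]; ring
  have hyle : |(y : ℝ)| ≤ 17 / 16 * R ^ 3 := by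
    apply abs_le_of_sq_le_sq _ (by positivity)
    have e1 : (17 / 16 * R ^ 3) ^ 2 = (17 / 16) ^ 2 * (x : ℝ) ^ 3 := by
      rw [mul_pow, hR6]
    rw [e1, hyR]
    nlinarith
  have hyge : 15 / 16 * R ^ 3 ≤ |(y : ℝ)| := by
    apply le_of_sq_le_sq _ (abs_nonneg _)
    rw [sq_abs, mul_pow, hR6, hyR]
    nlinarith
  -- the square root
  have hφs : ∀ φ : K →+* ℂ, ‖φ ((b : K) * (s : K))‖ = Real.sqrt D := by
    intro φ
    have h1 : ‖φ ((b : K) * (s : K))‖ ^ 2 = D := by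
      have e1 : ((s : K)) ^ 2 = (a : K) := by
        have := congrArg (algebraMap (𝓞 K) K) hs
        rw [map_pow, map_intCast] at this
        exact this
      rw [← norm_pow, ← map_pow, mul_pow, e1]
      have e2 : (b : K) ^ 2 * (a : K) = ((d : ℤ) : K) := by
        rw [hd]
        push_cast
        ring
      rw [e2, map_intCast, Complex.norm_intCast, hD]
    rw [← h1, Real.sqrt_sq (norm_nonneg _)]
  have hsD : Real.sqrt D ≤ 1 / 4 * R ^ 3 := by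
    apply Real.sqrt_le_iff.2 ⟨by positivity, ?_⟩
    rw [mul_pow, hR6]
    nlinarith
  have hsD0 : 0 ≤ Real.sqrt D := Real.sqrt_nonneg _
  have hyφ : ∀ φ : K →+* ℂ, ‖φ (y : K)‖ = |(y : ℝ)| := by
    intro φ
    rw [map_intCast, Complex.norm_intCast]
  -- the two factors
  obtain ⟨α₁, hα₁⟩ : ∃ α : 𝓞 K, α = (y : 𝓞 K) + b * s := ⟨_, rfl⟩
  obtain ⟨α₂, hα₂⟩ : ∃ α : 𝓞 K, α = (y : 𝓞 K) + ((-b : ℤ) : 𝓞 K) * s := ⟨_, rfl⟩
  have e1 : (α₁ : K) = (y : K) + (b : K) * (s : K) := by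
    rw [hα₁]
    simp
  have e2 : (α₂ : K) = (y : K) - (b : K) * (s : K) := by
    rw [hα₂]
    simp
    ring
  have hφ1 : ∀ φ : K →+* ℂ, ‖φ (α₁ : K)‖ ≤ 2 * R ^ 3 ∧ R ^ 3 ≤ 2 * ‖φ (α₁ : K)‖ := by
    intro φ
    rw [e1, map_add]
    have t1 := norm_add_le (φ (y : K)) (φ ((b : K) * (s : K)))
    have t2 := norm_sub_le (φ (y : K) + φ ((b : K) * (s : K))) (φ ((b : K) * (s : K)))
    rw [add_sub_cancel_right] at t2
    rw [hφs, hyφ] at t1 t2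
    have t3 : 0 < R ^ 3 := by positivity
    constructor <;> linarith
  have hφ2 : ∀ φ : K →+* ℂ, ‖φ (α₂ : K)‖ ≤ 2 * R ^ 3 ∧ R ^ 3 ≤ 2 * ‖φ (α₂ : K)‖ := by
    intro φ
    rw [e2, map_sub]
    have t1 := norm_sub_le (φ (y : K)) (φ ((b : K) * (s : K)))
    have t2 := norm_add_le (φ (y : K) - φ ((b : K) * (s : K))) (φ ((b : K) * (s : K)))
    rw [sub_add_cancel] at t2
    rw [hφs, hyφ] at t1 t2
    have t3 : 0 < R ^ 3 := by positivity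
    constructor <;> linarith
  obtain ⟨φ₀⟩ : Nonempty (K →+* ℂ) := inferInstance
  have hne : ∀ α : 𝓞 K, (∀ φ : K →+* ℂ, ‖φ (α : K)‖ ≤ 2 * R ^ 3 ∧ R ^ 3 ≤ 2 * ‖φ (α : K)‖) →
      α ≠ 0 := by
    rintro α hα rfl
    have h1 := (hα φ₀).2
    have t3 : 0 < R ^ 3 := by positivity
    simp at h1
    linarith
  have hfac : ∀ α : 𝓞 K, (∀ φ : K →+* ℂ, ‖φ (α : K)‖ ≤ 2 * R ^ 3 ∧
      R ^ 3 ≤ 2 * ‖φ (α : K)‖) → ∀ η ∈ T, ∀ β : 𝓞 K, (α : K) = η * (β : K) ^ 3 →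
      ∀ φ : K →+* ℂ, ‖φ (β : K)‖ ≤ (2 * c) * R ∧ R ≤ (2 * c) * ‖φ (β : K)‖ := by
    intro α hα η hη β hβ φ
    obtain ⟨k1, k2⟩ := hα φ
    obtain ⟨k3, k4⟩ := hc η hη φ
    have hη0 : φ η ≠ 0 := by
      rw [Ne, map_eq_zero]
      exact hT0 η hη
    rw [hβ, map_mul, map_pow, norm_mul, norm_pow] at k1 k2
    have hn0 : 0 < ‖φ η‖ := norm_pos_iff.2 hη0
    have hb0 : 0 ≤ ‖φ (β : K)‖ := norm_nonneg _
    rw [norm_inv] at k4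
    have hc0 : 0 < c := by linarith
    have hinv : 1 ≤ c * ‖φ η‖ := by
      have := mul_le_mul_of_nonneg_right k4 hn0.le
      rwa [inv_mul_cancel₀ hn0.ne'] at this
    have c2 : 2 * c ≤ (2 * c) ^ 3 := le_self_pow₀ (by linarith) (by norm_num)
    constructor
    · apply cube_le (by positivity)
      have m1 : ‖φ (β : K)‖ ^ 3 ≤ c * (‖φ η‖ * ‖φ (β : K)‖ ^ 3) := by
        have := mul_le_mul_of_nonneg_right hinv (pow_nonneg hb0 3)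
        linarith
      have m2 : c * (‖φ η‖ * ‖φ (β : K)‖ ^ 3) ≤ c * (2 * R ^ 3) :=
        mul_le_mul_of_nonneg_left k1 hc0.le
      have m3 : (2 * c) * R ^ 3 ≤ (2 * c) ^ 3 * R ^ 3 :=
        mul_le_mul_of_nonneg_right c2 (by positivity)
      rw [mul_pow]
      linarith
    · apply cube_le (by positivity)
      have m1 : ‖φ η‖ * ‖φ (β : K)‖ ^ 3 ≤ c * ‖φ (β : K)‖ ^ 3 :=
        mul_le_mul_of_nonneg_right k3 (pow_nonneg hb0 3)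
      have m3 : (2 * c) * ‖φ (β : K)‖ ^ 3 ≤ (2 * c) ^ 3 * ‖φ (β : K)‖ ^ 3 :=
        mul_le_mul_of_nonneg_right c2 (by positivity)
      rw [mul_pow]
      linarith
  have hM2 : ∀ v : HeightOneSpectrum (𝓞 K), ((2 * M : ℕ) : 𝓞 K) ∉ v.asIdeal →
      ∃ n : ℤ, v.valuation K (α₁ : K) = WithZero.exp (3 * n) := by
    intro v hv
    rw [hα₁]
    exact hDESC K s a b x y M hs h0 hxpos.ne' hg v hv
  have hM3 : ∀ v : HeightOneSpectrum (𝓞 K), ((2 * M : ℕ) : 𝓞 K) ∉ v.asIdeal →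
      ∃ n : ℤ, v.valuation K (α₂ : K) = WithZero.exp (3 * n) := by
    intro v hv
    rw [hα₂]
    exact hDESC K s a (-b) x y M hs (by rw [neg_sq]; exact h0) hxpos.ne' hg v hv
  obtain ⟨η₁, hη₁, β₁, hβ₁⟩ := hT α₁ (hne _ hφ1) hM2
  obtain ⟨η₂, hη₂, β₂, hβ₂⟩ := hT α₂ (hne _ hφ2) hM3
  have hG : η₁ * (β₁ : K) ^ 3 - η₂ * (β₂ : K) ^ 3 = 2 * ((b : K) * (s : K)) := by
    rw [← hβ₁, ← hβ₂, e1, e2]
    ring
  have hg1 : 1 ≤ 2 * Real.sqrt D := by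
    have : 1 ≤ Real.sqrt D := Real.one_le_sqrt.2 hD1
    linarith
  have hbs : (b : K) * (s : K) ≠ 0 := by
    intro h1
    have h2 := hφs φ₀
    rw [h1, map_zero, norm_zero] at h2
    have : 1 ≤ Real.sqrt D := Real.one_le_sqrt.2 hD1
    linarith
  have hfin := hCf η₁ hη₁ η₂ hη₂ β₁ β₂ R (2 * Real.sqrt D) hR1 hg1 (by
    rw [hG]
    exact mul_ne_zero two_ne_zero hbs) (fun φ => by
    obtain ⟨f1, f2⟩ := hfac α₁ hφ1 η₁ hη₁ β₁ hβ₁ φ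
    obtain ⟨f3, f4⟩ := hfac α₂ hφ2 η₂ hη₂ β₂ hβ₂ φ
    refine ⟨f1, f3, f2, f4, ?_⟩
    rw [hG, map_mul, norm_mul, hφs, map_ofNat, Complex.norm_ofNat])
  have hfin2 : R ≤ C * (2 * Real.sqrt D) ^ (1 + ε) :=
    hfin.trans (mul_le_mul_of_nonneg_right (hCle η₁ hη₁ η₂ hη₂) (by positivity))
  have hfin3 : R ^ 2 ≤ (C * (2 * Real.sqrt D) ^ (1 + ε)) ^ 2 := by
    gcongr
  have hpow : ((2 * Real.sqrt D) ^ (1 + ε)) ^ 2 = 4 ^ (1 + ε) * D ^ (1 + ε) := by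
    rw [← Real.rpow_natCast, ← Real.rpow_mul (by positivity), mul_comm (1 + ε),
      Real.rpow_mul (by positivity), Real.rpow_natCast, mul_pow, Real.sq_sqrt hD0.le,
      Real.mul_rpow (by positivity) hD0.le]
    norm_num
  rw [mul_pow, hpow, hR2] at hfin3
  rw [abs_of_pos hX0]
  have h16 : 0 ≤ 16 * D ^ (1 + ε) := by positivity
  have h4 : (16 + C ^ 2 * 4 ^ (1 + ε)) * D ^ (1 + ε) =
      16 * D ^ (1 + ε) + C ^ 2 * (4 ^ (1 + ε) * D ^ (1 + ε)) := by ring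
  linarith

end Pool.Agent.K3h44.SQ
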