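import Pool.Agent.K3h44.SQ.Stm2
import Pool.Agent.Y674.HM.Dbl

/-!
# Project SQ: assembly of the second part
-/

set_option autoImplicit false

namespace Pool.Agent.K3h44.SQ

open NumberField IsDedekindDomain

/-- a point all whose factors are squares is divisible by two -/
theorem half {L : Type} [Field L] [CharZero L] {e₁ e₂ e₃ k x y γ₁ γ₂ γ₃ : L}
    (hf : ∀ u : L, (u - e₁) * (u - e₂) * (u - e₃) = u ^ 3 + k)
    (h1 : x - e₁ = γ₁ ^ 2) (h2 : x - e₂ = γ₂ ^ 2) (h3 : x - e₃ = γ₃ ^ 2)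
    (hy : y = γ₁ * γ₂ * γ₃) : ∃ X Y l : L, Y ^ 2 = X ^ 3 + k ∧ 2 * Y * l = 3 * X ^ 2 ∧
      l ^ 2 - 2 * X = x ∧ l * (X - x) - Y = y := by
  -- the elementary symmetric functions
  have f0 := hf 0
  have f1 := hf 1
  have f2 := hf (-1)
  have f3 := hf 2
  have s3 : e₁ * e₂ * e₃ = -k := by linear_combination -f0
  have s1 : e₁ + e₂ + e₃ = 0 := by
    have : (6 : L) * (e₁ + e₂ + e₃) = 0 := by
      linear_combination -3 * f1 - 3 * f2 + 6 * f0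
    have h6 : (6 : L) ≠ 0 := by norm_num
    exact (mul_eq_zero.1 this).resolve_left h6
  have s2 : e₁ * e₂ + e₁ * e₃ + e₂ * e₃ = 0 := by
    have : (2 : L) * (e₁ * e₂ + e₁ * e₃ + e₂ * e₃) = 0 := by
      linear_combination f1 - f2
    exact (mul_eq_zero.1 this).resolve_left two_ne_zero
  refine ⟨x + γ₁ * γ₂ + γ₁ * γ₃ + γ₂ * γ₃, (γ₁ + γ₂) * (γ₁ + γ₃) * (γ₂ + γ₃), γ₁ + γ₂ + γ₃,
    ?_, ?_, ?_, ?_⟩
  · rw [← hf]
    have t1 : x + γ₁ * γ₂ + γ₁ * γ₃ + γ₂ * γ₃ - e₁ = (γ₁ + γ₂) * (γ₁ + γ₃) := by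
      linear_combination h1
    have t2 : x + γ₁ * γ₂ + γ₁ * γ₃ + γ₂ * γ₃ - e₂ = (γ₁ + γ₂) * (γ₂ + γ₃) := by
      linear_combination h2
    have t3 : x + γ₁ * γ₂ + γ₁ * γ₃ + γ₂ * γ₃ - e₃ = (γ₁ + γ₃) * (γ₂ + γ₃) := by
      linear_combination h3
    rw [t1, t2, t3]
    ring
  · have t1 : x + γ₁ * γ₂ + γ₁ * γ₃ + γ₂ * γ₃ - e₁ = (γ₁ + γ₂) * (γ₁ + γ₃) := by
      linear_combination h1
    have t2 : x + γ₁ * γ₂ + γ₁ * γ₃ + γ₂ * γ₃ - e₂ = (γ₁ + γ₂) * (γ₂ + γ₃) := by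
      linear_combination h2
    have t3 : x + γ₁ * γ₂ + γ₁ * γ₃ + γ₂ * γ₃ - e₃ = (γ₁ + γ₃) * (γ₂ + γ₃) := by
      linear_combination h3
    obtain ⟨X, hX⟩ : ∃ X, X = x + γ₁ * γ₂ + γ₁ * γ₃ + γ₂ * γ₃ := ⟨_, rfl⟩
    rw [← hX] at t1 t2 t3 ⊢
    have key : 3 * X ^ 2 = (X - e₁) * (X - e₂) + (X - e₁) * (X - e₃) + (X - e₂) * (X - e₃) := by
      linear_combination 2 * X * s1 - s2
    rw [key, t1, t2, t3]
    ring
  · have t : 3 * x = γ₁ ^ 2 + γ₂ ^ 2 + γ₃ ^ 2 := by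
      linear_combination h1 + h2 + h3 + s1
    linear_combination -t
  · rw [hy]
    ring

theorem asm2 (hSEL : S_SEL2) (hDESC : S_DESC2) (hFLD2 : S_FLD2) (hFLD3 : S_FLD3) (a : ℤ)
    (ha : a ≠ 0) (M : ℕ) (hM : M ≠ 0) (ε : ℝ) (hε : 0 < ε) : ∃ C : ℝ, ∀ b x y : ℤ, b ≠ 0 →
      y ^ 2 = x ^ 3 + a * b ^ 3 →
      (∀ q : ℕ, q.Prime → (q : ℤ) ∣ x → (q : ℤ) ∣ y → q ∣ M) →
      |(x : ℝ)| ≤ C * |((a * b ^ 3 : ℤ) : ℝ)| ^ (4 / 3 + ε) ∧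
      |(y : ℝ)| ≤ C * |((a * b ^ 3 : ℤ) : ℝ)| ^ (2 + ε) := by
  obtain ⟨K, _, _, τ₁, τ₂, τ₃, hτ⟩ := hFLD2 a
  have hM3 : 3 * a.natAbs * M ≠ 0 := by
    have : a.natAbs ≠ 0 := Int.natAbs_ne_zero.2 ha
    positivity
  obtain ⟨T, hT0, hT⟩ := hSEL K (3 * a.natAbs * M) hM3
  obtain ⟨L, _, _, f, hL⟩ := hFLD3 K T
  obtain ⟨C, hC⟩ := Pool.Agent.Y674.HM.dbl L ε hε
  refine ⟨max C 1, fun b x y hb h hg => ?_⟩
  obtain ⟨d, hd⟩ : ∃ d : ℤ, d = a * b ^ 3 := ⟨_, rfl⟩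
  have hd0 : d ≠ 0 := by
    rw [hd]
    exact mul_ne_zero ha (pow_ne_zero 3 hb)
  have h0 := h
  rw [← hd] at h ⊢
  have hD1 : (1 : ℝ) ≤ |(d : ℝ)| := by
    have : (1 : ℤ) ≤ |d| := Int.one_le_abs hd0
    exact_mod_cast this
  by_cases hy : y = 0
  · -- `y = 0`
    have hx3 : |x| ^ 3 = |d| := by
      rw [← abs_pow]
      have : x ^ 3 = -d := by
        rw [hy] at h
        linarith
      rw [this, abs_neg]
    have hx1 : |x| ≤ |d| := by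
      rw [← hx3]
      rcases eq_or_ne x 0 with h3 | h3
      · rw [h3]
        simp
      · exact le_self_pow₀ (Int.one_le_abs h3) (by norm_num)
    have hx2 : |(x : ℝ)| ≤ |(d : ℝ)| := by exact_mod_cast hx1
    have hp : |(d : ℝ)| ≤ |(d : ℝ)| ^ (4 / 3 + ε) := by
      have := Real.rpow_le_rpow_of_exponent_le hD1 (show (1 : ℝ) ≤ 4 / 3 + ε by linarith)
      rwa [Real.rpow_one] at this
    have hm : (1 : ℝ) ≤ max C 1 := le_max_right _ _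
    constructor
    · have : 0 ≤ |(d : ℝ)| ^ (4 / 3 + ε) := by positivity
      nlinarith
    · rw [hy]
      simp only [Int.cast_zero, abs_zero]
      have : 0 ≤ |(d : ℝ)| ^ (2 + ε) := by positivity
      nlinarith
  -- the factors
  have hmul : ((x : 𝓞 K) - b * τ₁) * ((x : 𝓞 K) - b * τ₂) * ((x : 𝓞 K) - b * τ₃) =
      (y : 𝓞 K) ^ 2 := by
    have f0 := hτ 0
    have f1 := hτ 1
    have f2 := hτ (-1)
    have s3 : τ₁ * τ₂ * τ₃ = -(a : 𝓞 K) := by linear_combination -f0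
    have s1 : τ₁ + τ₂ + τ₃ = 0 := by
      have : (2 : 𝓞 K) * (τ₁ + τ₂ + τ₃) = 0 := by
        linear_combination -f1 - f2 + 2 * f0
      exact (mul_eq_zero.1 this).resolve_left two_ne_zero
    have s2 : τ₁ * τ₂ + τ₁ * τ₃ + τ₂ * τ₃ = 0 := by
      have : (2 : 𝓞 K) * (τ₁ * τ₂ + τ₁ * τ₃ + τ₂ * τ₃) = 0 := by
        linear_combination f1 - f2
      exact (mul_eq_zero.1 this).resolve_left two_ne_zero
    have hK : ((y : ℤ) : 𝓞 K) ^ 2 = (x : 𝓞 K) ^ 3 + a * (b : 𝓞 K) ^ 3 := by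
      have := congrArg (Int.cast : ℤ → 𝓞 K) h0
      push_cast at this
      exact this
    rw [hK]
    linear_combination -(x : 𝓞 K) ^ 2 * (b : 𝓞 K) * s1 + (x : 𝓞 K) * (b : 𝓞 K) ^ 2 * s2 -
      (b : 𝓞 K) ^ 3 * s3
  have hyK : ((y : ℤ) : 𝓞 K) ≠ 0 := by exact_mod_cast hy
  have hne : ((x : 𝓞 K) - b * τ₁) ≠ 0 ∧ ((x : 𝓞 K) - b * τ₂) ≠ 0 ∧
      ((x : 𝓞 K) - b * τ₃) ≠ 0 := by
    refine ⟨fun h1 => ?_, fun h1 => ?_, fun h1 => ?_⟩ <;>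
    · rw [h1] at hmul
      exact pow_ne_zero 2 hyK (by rw [← hmul]; ring)
  have hp1 := hτ
  have hp2 : ∀ u : 𝓞 K, (u - τ₂) * (u - τ₁) * (u - τ₃) = u ^ 3 + (a : 𝓞 K) := fun u => by
    rw [← hτ]
    ring
  have hp3 : ∀ u : 𝓞 K, (u - τ₃) * (u - τ₁) * (u - τ₂) = u ^ 3 + (a : 𝓞 K) := fun u => by
    rw [← hτ]
    ring
  obtain ⟨η₁, hη₁, β₁, hβ₁⟩ := hT _ hne.1 (hDESC K τ₁ τ₂ τ₃ a b x y M hp1 h0 hy hg)
  obtain ⟨η₂, hη₂, β₂, hβ₂⟩ := hT _ hne.2.1 (hDESC K τ₂ τ₁ τ₃ a b x y M hp2 h0 hy hg)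
  obtain ⟨η₃, hη₃, β₃, hβ₃⟩ := hT _ hne.2.2 (hDESC K τ₃ τ₁ τ₂ a b x y M hp3 h0 hy hg)
  obtain ⟨γ₁, hγ₁⟩ := hL η₁ hη₁
  obtain ⟨γ₂, hγ₂⟩ := hL η₂ hη₂
  obtain ⟨γ₃, hγ₃⟩ := hL η₃ hη₃
  -- in `L`
  have hcast : ∀ τ : 𝓞 K, f ((((x : 𝓞 K) - b * τ : 𝓞 K)) : K) = (x : L) - b * f (τ : K) := by
    intro τ
    have e : ((((x : 𝓞 K) - b * τ : 𝓞 K)) : K) = (x : K) - b * (τ : K) := by simp
    rw [e, map_sub, map_mul, map_intCast, map_intCast]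
  have q1 : (x : L) - b * f (τ₁ : K) = (γ₁ * f β₁) ^ 2 := by
    rw [← hcast, hβ₁, map_mul, map_pow, ← hγ₁]
    ring
  have q2 : (x : L) - b * f (τ₂ : K) = (γ₂ * f β₂) ^ 2 := by
    rw [← hcast, hβ₂, map_mul, map_pow, ← hγ₂]
    ring
  have q3 : (x : L) - b * f (τ₃ : K) = (γ₃ * f β₃) ^ 2 := by
    rw [← hcast, hβ₃, map_mul, map_pow, ← hγ₃]
    ring
  have hfL : ∀ u : L, (u - b * f (τ₁ : K)) * (u - b * f (τ₂ : K)) * (u - b * f (τ₃ : K)) =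
      u ^ 3 + (d : L) := by
    intro u
    have g : ∀ v : 𝓞 K, (f (v : K) - f (τ₁ : K)) * (f (v : K) - f (τ₂ : K)) *
        (f (v : K) - f (τ₃ : K)) = f (v : K) ^ 3 + (a : L) := by
      intro v
      have := congrArg (fun w : 𝓞 K => f (w : K)) (hτ v)
      simpa using this
    have f0 := g 0
    have f1 := g 1
    have f2 := g (-1)
    simp only [map_zero, map_one, map_neg] at f0 f1 f2
    have s3 : f (τ₁ : K) * f (τ₂ : K) * f (τ₃ : K) = -(a : L) := by linear_combination -f0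
    have s1 : f (τ₁ : K) + f (τ₂ : K) + f (τ₃ : K) = 0 := by
      have : (2 : L) * (f (τ₁ : K) + f (τ₂ : K) + f (τ₃ : K)) = 0 := by
        linear_combination -f1 - f2 + 2 * f0
      exact (mul_eq_zero.1 this).resolve_left two_ne_zero
    have s2 : f (τ₁ : K) * f (τ₂ : K) + f (τ₁ : K) * f (τ₃ : K) + f (τ₂ : K) * f (τ₃ : K) = 0 := by
      have : (2 : L) * (f (τ₁ : K) * f (τ₂ : K) + f (τ₁ : K) * f (τ₃ : K) +
          f (τ₂ : K) * f (τ₃ : K)) = 0 := by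
        linear_combination f1 - f2
      exact (mul_eq_zero.1 this).resolve_left two_ne_zero
    rw [hd]
    push_cast
    linear_combination -u ^ 2 * (b : L) * s1 + u * (b : L) ^ 2 * s2 - (b : L) ^ 3 * s3
  have hy2 : (y : L) ^ 2 = ((γ₁ * f β₁) * (γ₂ * f β₂) * (γ₃ * f β₃)) ^ 2 := by
    have t1 : (y : L) ^ 2 = (x : L) ^ 3 + (d : L) := by exact_mod_cast congrArg (Int.cast : ℤ → L) h
    rw [t1, ← hfL, q1, q2, q3]
    ring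
  have hQ : ∃ X Y l : L, Y ^ 2 = X ^ 3 + (d : L) ∧ 2 * Y * l = 3 * X ^ 2 ∧
      l ^ 2 - 2 * X = (x : L) ∧ l * (X - x) - Y = (y : L) := by
    rcases sq_eq_sq_iff_eq_or_eq_neg.1 hy2 with h1 | h1
    · exact half hfL q1 q2 q3 h1
    · exact half hfL (γ₁ := -(γ₁ * f β₁)) (γ₂ := -(γ₂ * f β₂)) (γ₃ := -(γ₃ * f β₃))
        (by rw [q1]; ring) (by rw [q2]; ring) (by rw [q3]; ring) (by rw [h1]; ring)
  obtain ⟨r1, r2⟩ := hC d x y hd0 h hQ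
  have hm : C ≤ max C 1 := le_max_left _ _
  exact ⟨r1.trans (mul_le_mul_of_nonneg_right hm (by positivity)),
    r2.trans (mul_le_mul_of_nonneg_right hm (by positivity))⟩

end Pool.Agent.K3h44.SQ
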