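import Mathlib

/-!
# Project SQ: Hall's inequality for the Mordell curves with `d` in a fixed class modulo squares
-/

set_option autoImplicit false

namespace Pool.Agent.K3h44.SQ

open NumberField IsDedekindDomain

/-- SEL: the integers of a number field whose valuations away from `M` are divisible by three are in
finitely many classes modulo cubes -/
def S_SEL : Prop := ∀ (K : Type) [Field K] [NumberField K] (M : ℕ), M ≠ 0 →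
  ∃ T : Finset K, (∀ η ∈ T, η ≠ 0) ∧ ∀ α : 𝓞 K, α ≠ 0 →
    (∀ v : HeightOneSpectrum (𝓞 K), (M : 𝓞 K) ∉ v.asIdeal →
      ∃ n : ℤ, v.valuation K (α : K) = WithZero.exp (3 * n)) →
    ∃ η ∈ T, ∃ β : 𝓞 K, (α : K) = η * (β : K) ^ 3

/-- RTH: a lower bound for the values of `η₁ X ^ 3 - η₂ Y ^ 3` from Roth's theorem -/
def S_RTH : Prop := ∀ (K : Type) [Field K] [NumberField K] (η₁ η₂ : K), η₁ ≠ 0 → η₂ ≠ 0 →
  ∀ ε c : ℝ, 0 < ε → 1 ≤ c → ∃ C : ℝ, ∀ (β₁ β₂ : 𝓞 K) (R g : ℝ), 1 ≤ R → 1 ≤ g →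
    η₁ * (β₁ : K) ^ 3 - η₂ * (β₂ : K) ^ 3 ≠ 0 →
    (∀ φ : K →+* ℂ, ‖φ (β₁ : K)‖ ≤ c * R ∧ ‖φ (β₂ : K)‖ ≤ c * R ∧ R ≤ c * ‖φ (β₁ : K)‖ ∧
      R ≤ c * ‖φ (β₂ : K)‖ ∧ ‖φ (η₁ * (β₁ : K) ^ 3 - η₂ * (β₂ : K) ^ 3)‖ ≤ g) →
    R ≤ C * g ^ (1 + ε)

/-- DESC: the valuations of `y + b √a` are divisible by three away from `2 M` -/
def S_DESC : Prop := ∀ (K : Type) [Field K] [NumberField K] (s : 𝓞 K) (a b x y : ℤ) (M : ℕ),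
  s ^ 2 = (a : 𝓞 K) → y ^ 2 = x ^ 3 + a * b ^ 2 → x ≠ 0 →
  (∀ q : ℕ, q.Prime → (q : ℤ) ∣ x → (q : ℤ) ∣ y → q ∣ M) →
  ∀ v : HeightOneSpectrum (𝓞 K), ((2 * M : ℕ) : 𝓞 K) ∉ v.asIdeal →
    ∃ n : ℤ, v.valuation K (((y : 𝓞 K) + b * s : 𝓞 K) : K) = WithZero.exp (3 * n)

/-- FLD: a number field containing a square root -/
def S_FLD : Prop := ∀ a : ℤ, ∃ (K : Type) (_ : Field K) (_ : NumberField K), ∃ s : 𝓞 K,
  s ^ 2 = (a : 𝓞 K)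

end Pool.Agent.K3h44.SQ
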