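import Mathlib

/-!
# Project SQ, second part: `d` in a fixed class modulo cubes
-/

set_option autoImplicit false

namespace Pool.Agent.K3h44.SQ

open NumberField IsDedekindDomain

/-- SEL2: the integers of a number field whose valuations away from `M` are even are in finitely many
classes modulo squares -/
def S_SEL2 : Prop := ∀ (K : Type) [Field K] [NumberField K] (M : ℕ), M ≠ 0 →
  ∃ T : Finset K, (∀ η ∈ T, η ≠ 0) ∧ ∀ α : 𝓞 K, α ≠ 0 →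
    (∀ v : HeightOneSpectrum (𝓞 K), (M : 𝓞 K) ∉ v.asIdeal →
      ∃ n : ℤ, v.valuation K (α : K) = WithZero.exp (2 * n)) →
    ∃ η ∈ T, ∃ β : K, (α : K) = η * β ^ 2

/-- DESC2: the valuations of the factors of `x ^ 3 + a b ^ 3` are even away from `3 a M` -/
def S_DESC2 : Prop := ∀ (K : Type) [Field K] [NumberField K] (τ₁ τ₂ τ₃ : 𝓞 K) (a b x y : ℤ)
  (M : ℕ), (∀ u : 𝓞 K, (u - τ₁) * (u - τ₂) * (u - τ₃) = u ^ 3 + (a : 𝓞 K)) →
  y ^ 2 = x ^ 3 + a * b ^ 3 → y ≠ 0 →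
  (∀ q : ℕ, q.Prime → (q : ℤ) ∣ x → (q : ℤ) ∣ y → q ∣ M) →
  ∀ v : HeightOneSpectrum (𝓞 K), ((3 * a.natAbs * M : ℕ) : 𝓞 K) ∉ v.asIdeal →
    ∃ n : ℤ, v.valuation K (((x : 𝓞 K) - b * τ₁ : 𝓞 K) : K) = WithZero.exp (2 * n)

/-- FLD2: a number field containing the roots of `X ^ 3 + a` -/
def S_FLD2 : Prop := ∀ a : ℤ, ∃ (K : Type) (_ : Field K) (_ : NumberField K),
  ∃ τ₁ τ₂ τ₃ : 𝓞 K, ∀ u : 𝓞 K, (u - τ₁) * (u - τ₂) * (u - τ₃) = u ^ 3 + (a : 𝓞 K)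

/-- FLD3: an extension containing square roots of given numbers -/
def S_FLD3 : Prop := ∀ (K : Type) [Field K] [NumberField K] (T : Finset K),
  ∃ (L : Type) (_ : Field L) (_ : NumberField L) (f : K →+* L), ∀ η ∈ T, ∃ γ : L, γ ^ 2 = f η

end Pool.Agent.K3h44.SQ
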